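import Pool.Agent.Mg.F14a896.Gce929b

namespace Pool.Agent.Results.MP_14a896_co.LinearGrowth

open Pool.Agent.MP_14a896_co

/-- The number `k_n` is attained and grows linearly: `n / 20000 ≤ k_n ≤ n + 5`. -/
theorem result (n : ℕ) (hn : 3 ≤ n) : Suffices n (kn n) ∧ n ≤ 20000 * kn n ∧ kn n ≤ n + 5 :=
  have h : Suffices n (n + 5) := suffices_upper (by omega)
  have h' : Suffices n (kn n) := Nat.sInf_mem (s := {k | Suffices n k}) ⟨_, h⟩
  ⟨h', h'.lower hn, Nat.sInf_le h⟩

end Pool.Agent.Results.MP_14a896_co.LinearGrowth
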